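import Mathlib
import Pool.Agent.H520R3.Weyl

/-!
# Quadratic Gauss sums with a linear term, odd modulus
-/

set_option autoImplicit false

open Finset

namespace Pool.Agent.U796.WM

open Pool.Agent.H520R3

lemma range_sum (q : ℕ) [NeZero q] (f : ZMod q → ℂ) :
    ∑ r ∈ range q, f (r : ZMod q) = ∑ x, f x := by
  refine sum_nbij' (fun r => (r : ZMod q)) (fun x => x.val) ?_ ?_ ?_ ?_ ?_
  · intro r _; exact mem_univ _
  · intro x _; exact mem_range.2 (ZMod.val_lt x)
  · intro r hr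
    exact ZMod.val_cast_of_lt (mem_range.1 hr)
  · intro x _
    exact ZMod.natCast_zmod_val x
  · intro r _; rfl

lemma gauss_zmod (q : ℕ) [NeZero q] (p b : ZMod q) (hp : IsUnit p) (h2 : IsUnit (2 : ZMod q)) :
    ‖∑ x : ZMod q, ZMod.stdAddChar (p * x ^ 2 + b * x)‖ ^ 2 = q := by
  have key : (∑ x : ZMod q, ZMod.stdAddChar (p * x ^ 2 + b * x)) *
      (starRingEnd ℂ) (∑ x : ZMod q, ZMod.stdAddChar (p * x ^ 2 + b * x)) = q := by
    rw [map_sum, sum_mul_sum, sum_comm]
    have h1 : ∀ y : ZMod q, ∑ x : ZMod q, ZMod.stdAddChar (p * x ^ 2 + b * x) *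
        (starRingEnd ℂ) (ZMod.stdAddChar (p * y ^ 2 + b * y)) =
        ∑ h : ZMod q, ZMod.stdAddChar (p * h ^ 2 + b * h) * ZMod.stdAddChar (y * (2 * p * h)) := by
      intro y
      rw [← Equiv.sum_comp (Equiv.addRight y)]
      apply sum_congr rfl
      intro h _
      rw [← AddChar.map_neg_eq_conj, ← AddChar.map_add_eq_mul, ← AddChar.map_add_eq_mul]
      congr 1
      simp only [Equiv.coe_addRight]
      ring
    rw [sum_congr rfl (fun y _ => h1 y), sum_comm]
    have h3 : ∀ h : ZMod q, ∑ y : ZMod q, ZMod.stdAddChar (p * h ^ 2 + b * h) *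
        ZMod.stdAddChar (y * (2 * p * h)) = if h = 0 then (q : ℂ) else 0 := by
      intro h
      rw [← mul_sum, AddChar.sum_mulShift _ (ZMod.isPrimitive_stdAddChar q)]
      by_cases hh : h = 0
      · simp [hh]
      · have : 2 * p * h ≠ 0 := by
          intro h0
          apply hh
          exact ((h2.mul hp).mul_right_eq_zero).1 h0
        simp [hh, this]
    rw [sum_congr rfl (fun h _ => h3 h)]
    simp
  rw [Complex.mul_conj, Complex.normSq_eq_norm_sq] at key
  exact_mod_cast key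

lemma e_eq_char (q : ℕ) [NeZero q] (j : ℤ) : e ((j : ℝ) / q) = ZMod.stdAddChar (j : ZMod q) := by
  rw [ZMod.stdAddChar_coe]
  unfold e
  congr 1
  push_cast
  ring

lemma gauss_norm (q p : ℕ) (b : ℤ) (hq : 1 ≤ q) (hodd : Nat.Coprime 2 q) (hp : Nat.Coprime p q) :
    ‖∑ r ∈ range q, e (((p : ℝ) * (r : ℝ) ^ 2 + b * r) / q)‖ = Real.sqrt q := by
  haveI : NeZero q := ⟨by omega⟩
  have hpu : IsUnit ((p : ℕ) : ZMod q) := (ZMod.isUnit_iff_coprime p q).2 hp
  have h2u : IsUnit (2 : ZMod q) := by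
    have := (ZMod.isUnit_iff_coprime 2 q).2 hodd
    exact_mod_cast this
  have h := gauss_zmod q (p : ZMod q) (b : ZMod q) hpu h2u
  have h1 : ∑ r ∈ range q, e (((p : ℝ) * (r : ℝ) ^ 2 + b * r) / q) =
      ∑ x : ZMod q, ZMod.stdAddChar ((p : ZMod q) * x ^ 2 + (b : ZMod q) * x) := by
    rw [← range_sum q (fun x => ZMod.stdAddChar ((p : ZMod q) * x ^ 2 + (b : ZMod q) * x))]
    apply sum_congr rfl
    intro r _
    have := e_eq_char q ((p : ℤ) * (r : ℤ) ^ 2 + b * r)
    push_cast at this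
    rw [this]
  rw [h1, ← h, Real.sqrt_sq (norm_nonneg _)]

end Pool.Agent.U796.WM
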