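import Mathlib
import Pool.Agent.H520R3.Weyl

/-!
# Quadratic Weyl sums near a rational with odd denominator: upper bounds

Weyl differencing reduces `|∑_{n<N} e(θ n² + x n)|²` to the sum of `1/‖2θh‖` over `h < N`; when
`2θ = a/q + B` with `0 < B` and `2 N q B ≤ 1` this sum is computed by hand.
-/

set_option autoImplicit false

open Finset

namespace Pool.Agent.U796.WM

open Pool.Agent.H520R3

/-- the quadratic Weyl sum `∑_{n<N} e(θ n² + x n)` -/
noncomputable def S (x θ : ℝ) (N : ℕ) : ℂ := ∑ n ∈ range N, e (θ * (n : ℝ) ^ 2 + x * n)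

lemma geom_bound' {x κ : ℝ} (hκ : 0 < κ) (h : κ ≤ |x - round x|) (m : ℕ) :
    ‖∑ j ∈ range m, e (x * j)‖ ≤ 1 / (2 * κ) := by
  have h2 := four_mul_le x
  have h3 : e x ≠ 1 := by
    intro h
    rw [h, sub_self, norm_zero] at h2
    linarith
  have h4 : ∑ j ∈ range m, e (x * j) = ∑ j ∈ range m, e x ^ j := by
    apply sum_congr rfl
    intro j _
    exact e_mul_nat x j
  rw [h4, geom_sum_eq h3, norm_div]
  have h5 : ‖e x ^ m - 1‖ ≤ 2 := by
    refine le_trans (norm_sub_le _ _) ?_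
    rw [norm_pow, norm_e, one_pow, norm_one]
    norm_num
  have h6 : 0 < ‖e x - 1‖ := norm_pos_iff.2 (sub_ne_zero.2 h3)
  rw [div_le_div_iff₀ h6 (by positivity)]
  nlinarith [norm_nonneg (e x ^ m - 1)]

lemma diff_S (x θ : ℝ) (N : ℕ) :
    ‖S x θ N‖ ^ 2 ≤ 2 * ∑ h ∈ range N, ‖∑ y ∈ range (N - h), e ((2 * θ * h) * y)‖ := by
  refine le_trans (diff_ineq (fun n : ℕ => e (θ * (n : ℝ) ^ 2 + x * n)) N) ?_
  apply le_of_eq
  congr 1
  apply sum_congr rfl
  intro k _
  have e1 : ∑ y ∈ range (N - k), e (θ * ((k + y : ℕ) : ℝ) ^ 2 + x * ((k + y : ℕ) : ℝ)) *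
      (starRingEnd ℂ) (e (θ * (y : ℝ) ^ 2 + x * y)) =
      e (θ * (k : ℝ) ^ 2 + x * k) * ∑ y ∈ range (N - k), e ((2 * θ * k) * y) := by
    rw [mul_sum]
    apply sum_congr rfl
    intro y _
    rw [← e_neg, ← e_add, ← e_add]
    congr 1
    push_cast
    ring
  rw [e1, norm_mul, norm_e, one_mul]

lemma norm_geom_le_N (t : ℝ) (m : ℕ) : ‖∑ y ∈ range m, e (t * y)‖ ≤ m := by
  refine le_trans (norm_sum_le _ _) ?_
  rw [sum_congr rfl (fun x _ => norm_e _)]
  simp

/-- the weight of the residue `r` -/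
noncomputable def wt (q r : ℕ) : ℝ := if r = 0 then 0 else (q : ℝ) / r + (q : ℝ) / (q - r : ℕ)

lemma wt_nonneg (q r : ℕ) : 0 ≤ wt q r := by
  unfold wt
  split_ifs
  · exact le_rfl
  · positivity

lemma sum_inv_le (n : ℕ) : ∑ r ∈ range n, (1 : ℝ) / (r + 1 : ℕ) ≤ 1 + Real.log n := by
  have h := harmonic_le_one_add_log n
  rw [harmonic] at h
  push_cast at h
  refine le_trans (le_of_eq ?_) h
  apply sum_congr rfl
  intro r _
  push_cast
  rw [one_div]

lemma sum_wt (q : ℕ) (hq : 1 ≤ q) : ∑ r ∈ range q, wt q r ≤ 2 * q * (1 + Real.log q) := by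
  obtain ⟨n, rfl⟩ := Nat.exists_eq_add_of_le' hq
  rw [sum_range_succ', show wt (n + 1) 0 = 0 by simp [wt], add_zero]
  have h1 : ∀ r ∈ range n, wt (n + 1) (r + 1) =
      ((n + 1 : ℕ) : ℝ) * (1 / (r + 1 : ℕ)) + ((n + 1 : ℕ) : ℝ) * (1 / ((n - 1 - r + 1 : ℕ) : ℝ)) := by
    intro r hr
    rw [mem_range] at hr
    unfold wt
    rw [if_neg (by omega)]
    have : n + 1 - (r + 1) = n - 1 - r + 1 := by omega
    rw [this]
    ring
  rw [sum_congr rfl h1, sum_add_distrib, ← mul_sum, ← mul_sum,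
    sum_range_reflect (fun r => (1 : ℝ) / ((r + 1 : ℕ) : ℝ)) n]
  have h2 := sum_inv_le n
  have h3 : Real.log n ≤ Real.log ((n + 1 : ℕ) : ℝ) := by
    rcases Nat.eq_zero_or_pos n with rfl | hn
    · simp
    · apply Real.log_le_log (by exact_mod_cast hn)
      push_cast
      linarith
  have h4 : (0 : ℝ) < ((n + 1 : ℕ) : ℝ) := by positivity
  nlinarith

lemma sum_block (f : ℕ → ℝ) (q : ℕ) (hf : ∀ h, f (q + h) = f h) (M : ℕ) :
    ∑ h ∈ range (q * M), f h = M * ∑ h ∈ range q, f h := by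
  induction M with
  | zero => simp
  | succ M ih =>
    have : q * (M + 1) = q + q * M := by ring
    rw [this, sum_range_add, sum_congr rfl (fun h _ => hf h), ih]
    push_cast
    ring

lemma sum_perm (g : ℕ → ℝ) (q a : ℕ) (hq : 1 ≤ q) (ha : Nat.Coprime q a) :
    ∑ h ∈ range q, g (a * h % q) = ∑ r ∈ range q, g r := by
  have hinj : Set.InjOn (fun h => a * h % q) (range q : Set ℕ) := by
    intro x hx y hy hxy
    simp only [coe_range, Set.mem_Iio] at hx hy
    have h1 : a * x ≡ a * y [MOD q] := hxy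
    have h2 := Nat.ModEq.cancel_left_of_coprime ha h1
    have h3 : x % q = y % q := h2
    rwa [Nat.mod_eq_of_lt hx, Nat.mod_eq_of_lt hy] at h3
  have himg : (range q).image (fun h => a * h % q) = range q := by
    apply eq_of_subset_of_card_le
    · intro x hx
      rw [mem_image] at hx
      obtain ⟨y, _, rfl⟩ := hx
      exact mem_range.2 (Nat.mod_lt _ hq)
    · rw [card_image_of_injOn hinj]
  conv_rhs => rw [← himg]
  rw [sum_image hinj]

/-- a single term: `h` not divisible by `q` -/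
lemma term_le {q a : ℕ} (hq : 1 ≤ q) (ha : Nat.Coprime q a) {B : ℝ} (hB : 0 < B) {N h : ℕ}
    (hN : 2 * (N : ℝ) * q * B ≤ 1) (hh : h < N) (hd : ¬ q ∣ h) (m : ℕ) :
    ‖∑ y ∈ range m, e ((((a : ℝ) / q + B) * h) * y)‖ ≤ wt q (a * h % q) := by
  have hq0 : (0 : ℝ) < q := by exact_mod_cast hq
  have hh0 : (0 : ℝ) ≤ h := Nat.cast_nonneg h
  set r := a * h % q with hr
  have hrq : r < q := Nat.mod_lt _ hq
  have hr0 : r ≠ 0 := by
    intro h0
    rw [h0] at hr
    have h1 : q ∣ a * h := Nat.dvd_of_mod_eq_zero hr.symm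
    exact hd (ha.dvd_of_dvd_mul_left h1)
  have hr1 : 1 ≤ r := by omega
  have hr1' : (1 : ℝ) ≤ r := by exact_mod_cast hr1
  obtain ⟨w, hw⟩ : ∃ w : ℕ, w = a * h / q := ⟨_, rfl⟩
  have hdm : a * h = q * w + r := by rw [hw]; exact (Nat.div_add_mod _ _).symm
  have hdm' : (a : ℝ) * h = q * (w : ℝ) + r := by exact_mod_cast hdm
  have hhN : (h : ℝ) ≤ N := by exact_mod_cast hh.le
  have hhB : (h : ℝ) * B * (2 * q) ≤ 1 := by
    have : (h : ℝ) * B * (2 * q) ≤ N * B * (2 * q) := by
      apply mul_le_mul_of_nonneg_right _ (by positivity)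
      exact mul_le_mul_of_nonneg_right hhN hB.le
    linarith
  have hrqc : ((q - r : ℕ) : ℝ) = q - r := by push_cast [Nat.cast_sub hrq.le]; ring
  have hqr1 : (1 : ℝ) ≤ q - r := by
    rw [← hrqc]
    have : 1 ≤ q - r := by omega
    exact_mod_cast this
  set t := ((a : ℝ) / q + B) * h with ht
  have hteq : t = (w : ℝ) + (r / q + h * B) := by
    rw [ht]
    field_simp
    linear_combination hdm'
  set κ : ℝ := min (r : ℝ) (q - r) / (2 * q) with hκ
  have hκ0 : 0 < κ := by
    rw [hκ]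
    apply div_pos _ (by positivity)
    exact lt_min (by linarith) (by linarith)
  have hdist : κ ≤ |t - round t| := by
    have h1 : ∀ z : ℤ, κ ≤ |t - z| := by
      intro z
      rw [hteq]
      have hmin1 : κ ≤ r / (2 * q) := by
        rw [hκ]
        gcongr
        exact min_le_left _ _
      have hmin2 : κ ≤ (q - r) / (2 * q) := by
        rw [hκ]
        gcongr
        exact min_le_right _ _
      rcases le_or_gt z (w : ℤ) with hz | hz
      · have hz' : (z : ℝ) ≤ (w : ℝ) := by exact_mod_cast hz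
        have : (r : ℝ) / (2 * q) ≤ r / q := by
          apply div_le_div_of_nonneg_left (by linarith) hq0
          linarith
        have h4 : 0 ≤ (h : ℝ) * B := by positivity
        refine le_trans ?_ (le_abs_self _)
        linarith
      · have hz' : (w : ℝ) + 1 ≤ z := by exact_mod_cast hz
        have h5 : (r : ℝ) / q + h * B ≤ 1 - (q - r) / (2 * q) := by
          rw [show (1 : ℝ) - (q - r) / (2 * q) = (q + r) / (2 * q) by field_simp; ring,
            show (r : ℝ) / q + h * B = (2 * r + h * B * (2 * q)) / (2 * q) by field_simp]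
          apply div_le_div_of_nonneg_right _ (by positivity)
          linarith
        rw [abs_sub_comm]
        refine le_trans ?_ (le_abs_self _)
        linarith
    exact h1 _
  refine le_trans (geom_bound' hκ0 hdist m) ?_
  unfold wt
  rw [if_neg hr0, hrqc, hκ]
  rcases le_total (r : ℝ) (q - r) with h6 | h6
  · rw [min_eq_left h6]
    have : 1 / (2 * ((r : ℝ) / (2 * q))) = q / r := by field_simp
    rw [this]
    have : 0 ≤ (q : ℝ) / (q - r) := by positivity
    linarith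
  · rw [min_eq_right h6]
    have hne : (q : ℝ) - r ≠ 0 := by linarith
    have : 1 / (2 * (((q : ℝ) - r) / (2 * q))) = q / (q - r) := by field_simp
    rw [this]
    have : 0 ≤ (q : ℝ) / r := by positivity
    linarith

/-- the contribution of all `h < N` that are not divisible by `q` -/
lemma sum_nondvd {q a : ℕ} (hq : 1 ≤ q) (ha : Nat.Coprime q a) {B : ℝ} (hB : 0 < B) {N : ℕ}
    (hN : 2 * (N : ℝ) * q * B ≤ 1) :
    ∑ h ∈ (range N).filter (fun h => ¬ q ∣ h),
      ‖∑ y ∈ range (N - h), e ((((a : ℝ) / q + B) * h) * y)‖ ≤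
      2 * (N + q) * (1 + Real.log q) := by
  have hq0 : (0 : ℝ) < q := by exact_mod_cast hq
  have h1 : ∑ h ∈ (range N).filter (fun h => ¬ q ∣ h),
      ‖∑ y ∈ range (N - h), e ((((a : ℝ) / q + B) * h) * y)‖ ≤
      ∑ h ∈ (range N).filter (fun h => ¬ q ∣ h), wt q (a * h % q) := by
    apply sum_le_sum
    intro h hh
    rw [mem_filter, mem_range] at hh
    exact term_le hq ha hB hN hh.1 hh.2 _
  have h2 : ∑ h ∈ (range N).filter (fun h => ¬ q ∣ h), wt q (a * h % q) ≤
      ∑ h ∈ range (q * (N / q + 1)), wt q (a * h % q) := by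
    apply sum_le_sum_of_subset_of_nonneg
    · intro h hh
      rw [mem_filter, mem_range] at hh
      rw [mem_range]
      have := Nat.lt_mul_div_succ N hq
      exact lt_trans hh.1 this
    · intro h _ _
      exact wt_nonneg _ _
  have h3 : ∑ h ∈ range (q * (N / q + 1)), wt q (a * h % q) =
      ((N / q + 1 : ℕ) : ℝ) * ∑ h ∈ range q, wt q (a * h % q) := by
    apply sum_block
    intro h
    congr 1
    rw [mul_add, Nat.mul_add_mod' ]
  rw [h3, sum_perm _ q a hq ha] at h2
  have h4 := sum_wt q hq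
  have h5 : (((N / q + 1 : ℕ)) : ℝ) ≤ (N : ℝ) / q + 1 := by
    push_cast
    have := @Nat.cast_div_le ℝ _ _ _ N q
    linarith
  have h6 : 0 ≤ ∑ r ∈ range q, wt q r := sum_nonneg (fun r _ => wt_nonneg _ _)
  have h7 : (((N / q + 1 : ℕ)) : ℝ) * ∑ r ∈ range q, wt q r ≤
      ((N : ℝ) / q + 1) * (2 * q * (1 + Real.log q)) := by
    apply mul_le_mul h5 h4 h6 (by positivity)
  have h8 : ((N : ℝ) / q + 1) * (2 * q * (1 + Real.log q)) = 2 * (N + q) * (1 + Real.log q) := by
    field_simp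
  linarith

/-- a single term: `h = q m` -/
lemma term_dvd {q a : ℕ} (hq : 1 ≤ q) {B : ℝ} (hB : 0 < B) {N m : ℕ}
    (hN : 2 * (N : ℝ) * q * B ≤ 1) (hm : 1 ≤ m) (hh : q * m ≤ N) (M : ℕ) :
    ‖∑ y ∈ range M, e ((((a : ℝ) / q + B) * ((q * m : ℕ) : ℝ)) * y)‖ ≤
      1 / (2 * (q * B)) * (1 / m) := by
  have hq0 : (0 : ℝ) < q := by exact_mod_cast hq
  have hq1 : (1 : ℝ) ≤ q := by exact_mod_cast hq
  have hm0 : (0 : ℝ) < m := by exact_mod_cast hm
  have hhN : (q : ℝ) * m ≤ N := by exact_mod_cast hh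
  set κ : ℝ := q * m * B with hκ
  have hκ0 : 0 < κ := by positivity
  have hκ1 : κ ≤ 1 / 2 := by
    have h1 : κ ≤ N * B := by
      rw [hκ]
      exact mul_le_mul_of_nonneg_right hhN hB.le
    have h2 : (N : ℝ) * B * 1 ≤ N * B * q := by
      apply mul_le_mul_of_nonneg_left hq1 (by positivity)
    linarith
  have hteq : ((a : ℝ) / q + B) * ((q * m : ℕ) : ℝ) = ((a * m : ℕ) : ℝ) + κ := by
    rw [hκ]
    push_cast
    field_simp
  have hdist : κ ≤ |((a : ℝ) / q + B) * ((q * m : ℕ) : ℝ) -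
      round (((a : ℝ) / q + B) * ((q * m : ℕ) : ℝ))| := by
    have h1 : ∀ z : ℤ, κ ≤ |((a : ℝ) / q + B) * ((q * m : ℕ) : ℝ) - z| := by
      intro z
      rw [hteq]
      rcases le_or_gt z ((a * m : ℕ) : ℤ) with hz | hz
      · have hz' : (z : ℝ) ≤ ((a * m : ℕ) : ℝ) := by exact_mod_cast hz
        refine le_trans ?_ (le_abs_self _)
        linarith
      · have hz0 : ((a * m : ℕ) : ℤ) + 1 ≤ z := hz
        have hz' : ((a * m : ℕ) : ℝ) + 1 ≤ z := by exact_mod_cast hz0
        rw [abs_sub_comm]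
        refine le_trans ?_ (le_abs_self _)
        linarith
    exact h1 _
  refine le_trans (geom_bound' hκ0 hdist M) (le_of_eq ?_)
  rw [hκ]
  field_simp

/-- upper bound for the quadratic Weyl sum with `2θ = a/q + B` -/
lemma S_upper {q a : ℕ} (hq : 1 ≤ q) (ha : Nat.Coprime q a) {B : ℝ} (hB : 0 < B) {N : ℕ}
    (hN : 2 * (N : ℝ) * q * B ≤ 1) (x θ : ℝ) (hθ : 2 * θ = a / q + B) :
    ‖S x θ N‖ ^ 2 ≤ 2 * (2 * (N + q) * (1 + Real.log q) + (N +
      min ((N : ℝ) ^ 2 / q) (1 / (2 * (q * B)) * (1 + Real.log N)))) := by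
  have hq0 : (0 : ℝ) < q := by exact_mod_cast hq
  refine le_trans (diff_S x θ N) ?_
  rw [hθ]
  apply mul_le_mul_of_nonneg_left _ (by norm_num)
  rw [← sum_filter_add_sum_filter_not (range N) (fun h => ¬ q ∣ h)]
  apply add_le_add (sum_nondvd hq ha hB hN)
  set F : ℕ → ℝ := fun h => ‖∑ y ∈ range (N - h), e ((((a : ℝ) / q + B) * h) * y)‖ with hF
  have hF0 : ∀ h, 0 ≤ F h := fun h => norm_nonneg _
  have hFN : ∀ h, F h ≤ N := by
    intro h
    refine le_trans (norm_geom_le_N _ _) ?_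
    exact_mod_cast Nat.sub_le _ _
  have h1 : ∑ h ∈ (range N).filter (fun h => ¬ ¬ q ∣ h), F h ≤ ∑ m ∈ range (N / q + 1), F (q * m) := by
    rw [← sum_image (f := F) (g := fun m => q * m) (s := range (N / q + 1))]
    · apply sum_le_sum_of_subset_of_nonneg
      · intro h hh
        rw [mem_filter, mem_range, not_not] at hh
        obtain ⟨hh1, m, rfl⟩ := hh
        rw [mem_image]
        refine ⟨m, ?_, rfl⟩
        rw [mem_range, Nat.lt_succ_iff, Nat.le_div_iff_mul_le hq]
        rw [mul_comm]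
        exact hh1.le
      · intro h _ _
        exact hF0 h
    · intro x _ y _ hxy
      exact Nat.eq_of_mul_eq_mul_left hq hxy
  refine le_trans h1 ?_
  rw [sum_range_succ', add_comm]
  apply add_le_add (hFN _)
  apply le_min
  · have h2 : ∑ m ∈ range (N / q), F (q * (m + 1)) ≤ ∑ m ∈ range (N / q), (N : ℝ) :=
      sum_le_sum (fun m _ => hFN _)
    rw [sum_const, card_range, nsmul_eq_mul] at h2
    refine le_trans h2 ?_
    have h3 : ((N / q : ℕ) : ℝ) ≤ (N : ℝ) / q := Nat.cast_div_le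
    have h4 : ((N / q : ℕ) : ℝ) * N ≤ (N : ℝ) / q * N :=
      mul_le_mul_of_nonneg_right h3 (Nat.cast_nonneg _)
    refine le_trans h4 (le_of_eq ?_)
    ring
  · have h2 : ∑ m ∈ range (N / q), F (q * (m + 1)) ≤
        ∑ m ∈ range (N / q), 1 / (2 * (q * B)) * (1 / ((m + 1 : ℕ) : ℝ)) := by
      apply sum_le_sum
      intro m hm
      rw [mem_range] at hm
      have h3 : q * (m + 1) ≤ N := by
        rw [mul_comm]
        exact (Nat.le_div_iff_mul_le hq).1 hm
      exact term_dvd hq hB hN (by omega) h3 _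
    refine le_trans h2 ?_
    rw [← mul_sum]
    apply mul_le_mul_of_nonneg_left _ (by positivity)
    refine le_trans (sum_inv_le _) ?_
    rcases Nat.eq_zero_or_pos (N / q) with h0 | h0
    · rw [h0]
      simp only [CharP.cast_eq_zero, Real.log_zero, add_zero]
      have : 0 ≤ Real.log (N : ℝ) := Real.log_natCast_nonneg N
      linarith
    · have : Real.log ((N / q : ℕ) : ℝ) ≤ Real.log N := by
        apply Real.log_le_log (by exact_mod_cast h0)
        exact_mod_cast Nat.div_le_self _ _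
      linarith

end Pool.Agent.U796.WM
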