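import Mathlib
import Pool.Agent.U796.WM.Sum
import Pool.Agent.U796.WM.Gauss

/-!
# Lower bound for quadratic Weyl sums close to a rational point with odd denominator
-/

set_option autoImplicit false

open Finset

namespace Pool.Agent.U796.WM

open Pool.Agent.H520R3

lemma sum_range_mul_block (f : ℕ → ℂ) (q M : ℕ) :
    ∑ n ∈ range (q * M), f n = ∑ j ∈ range M, ∑ r ∈ range q, f (q * j + r) := by
  induction M with
  | zero => simp
  | succ M ih =>
    have : q * (M + 1) = q * M + q := by ring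
    rw [this, sum_range_add, ih, sum_range_succ]

/-- the slowly varying factor -/
noncomputable def w (β γ : ℝ) (n : ℕ) : ℂ := e (β * (n : ℝ) ^ 2 + γ * n)

lemma norm_w_sub_one {β γ : ℝ} (hβ : 0 ≤ β) {n N : ℕ} (hn : n ≤ N) :
    ‖w β γ n - 1‖ ≤ 2 * Real.pi * (β * (N : ℝ) ^ 2 + |γ| * N) := by
  refine le_trans (norm_e_sub_one_le _) ?_
  apply mul_le_mul_of_nonneg_left _ (by positivity)
  have h1 : (n : ℝ) ≤ N := by exact_mod_cast hn
  have h2 : (n : ℝ) ^ 2 ≤ (N : ℝ) ^ 2 := by gcongr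
  refine le_trans (abs_add_le _ _) ?_
  rw [abs_mul, abs_mul, abs_of_nonneg hβ, abs_of_nonneg (sq_nonneg (n : ℝ)),
    abs_of_nonneg (Nat.cast_nonneg n : (0 : ℝ) ≤ (n : ℝ))]
  apply add_le_add
  · exact mul_le_mul_of_nonneg_left h2 hβ
  · exact mul_le_mul_of_nonneg_left h1 (abs_nonneg _)

lemma norm_w_sub {β γ : ℝ} (hβ : 0 ≤ β) {n r q N : ℕ} (hr : r ≤ q) (hn : n + r ≤ N) :
    ‖w β γ (n + r) - w β γ n‖ ≤ 2 * Real.pi * (q * (2 * β * N + |γ|)) := by
  refine le_trans (norm_e_sub_e_le _ _) ?_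
  apply mul_le_mul_of_nonneg_left _ (by positivity)
  have h1 : (n : ℝ) + r ≤ N := by exact_mod_cast hn
  have h0 : (0 : ℝ) ≤ n := Nat.cast_nonneg n
  have h0' : (0 : ℝ) ≤ r := Nat.cast_nonneg r
  have h2 : (r : ℝ) ≤ q := by exact_mod_cast hr
  have e1 : β * ((n + r : ℕ) : ℝ) ^ 2 + γ * ((n + r : ℕ) : ℝ) - (β * (n : ℝ) ^ 2 + γ * n) =
      r * (β * (2 * n + r) + γ) := by
    push_cast
    ring
  rw [e1, abs_mul, abs_of_nonneg h0']
  apply mul_le_mul h2 _ (abs_nonneg _) (by positivity)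
  refine le_trans (abs_add_le _ _) ?_
  apply add_le_add _ le_rfl
  rw [abs_of_nonneg (by positivity)]
  nlinarith

lemma term_split (p q : ℕ) (b : ℤ) (hq : 1 ≤ q) (β γ : ℝ) (j r : ℕ) :
    e (((p : ℝ) / q + β) * ((q * j + r : ℕ) : ℝ) ^ 2 + ((b : ℝ) / q + γ) * ((q * j + r : ℕ) : ℝ)) =
      e (((p : ℝ) * (r : ℝ) ^ 2 + b * r) / q) * w β γ (q * j + r) := by
  have hq0 : (q : ℝ) ≠ 0 := by
    have : 0 < q := hq
    positivity
  unfold w
  rw [← e_add]
  have := e_add_int (((p : ℝ) * (r : ℝ) ^ 2 + b * r) / q +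
    (β * ((q * j + r : ℕ) : ℝ) ^ 2 + γ * ((q * j + r : ℕ) : ℝ)))
    ((p : ℤ) * (q * j ^ 2 + 2 * j * r) + b * j)
  rw [← this]
  congr 1
  push_cast
  field_simp
  ring

theorem S_lower {q M p : ℕ} (b : ℤ) (hq : 1 ≤ q) (hodd : Nat.Coprime 2 q) (hp : Nat.Coprime p q)
    (hM : q ≤ M) {β γ : ℝ} (hβ : 0 ≤ β)
    (hδ : 2 * Real.pi * (β * ((q * M : ℕ) : ℝ) ^ 2 + |γ| * ((q * M : ℕ) : ℝ)) ≤ 1 / 8) :
    1 / 2 * (Real.sqrt q * M) ≤ ‖S ((b : ℝ) / q + γ) ((p : ℝ) / q + β) (q * M)‖ := by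
  set N := q * M with hN
  have hq0 : (0 : ℝ) < q := by exact_mod_cast hq
  have hM0 : (0 : ℝ) < M := by
    have : 0 < M := lt_of_lt_of_le hq hM
    exact_mod_cast this
  have hNc : (N : ℝ) = q * M := by rw [hN]; push_cast; ring
  set c : ℕ → ℂ := fun r => e (((p : ℝ) * (r : ℝ) ^ 2 + b * r) / q) with hc
  set G : ℂ := ∑ r ∈ range q, c r with hG
  have hGn : ‖G‖ = Real.sqrt q := gauss_norm q p b hq hodd hp
  have hS : S ((b : ℝ) / q + γ) ((p : ℝ) / q + β) N =
      G * ∑ j ∈ range M, w β γ (q * j) +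
      ∑ j ∈ range M, ∑ r ∈ range q, c r * (w β γ (q * j + r) - w β γ (q * j)) := by
    unfold S
    rw [hN, sum_range_mul_block, mul_sum, ← sum_add_distrib]
    apply sum_congr rfl
    intro j _
    rw [hG, sum_mul, ← sum_add_distrib]
    apply sum_congr rfl
    intro r _
    rw [term_split p q b hq β γ j r]
    ring
  -- the main part
  have hmain : (M : ℝ) * (1 - 1 / 8) ≤ ‖∑ j ∈ range M, w β γ (q * j)‖ := by
    have h1 : ∑ j ∈ range M, w β γ (q * j) = M + ∑ j ∈ range M, (w β γ (q * j) - 1) := by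
      rw [sum_sub_distrib]
      simp
    have h2 : ‖∑ j ∈ range M, (w β γ (q * j) - 1)‖ ≤ M * (1 / 8) := by
      refine le_trans (norm_sum_le _ _) ?_
      have : ∑ j ∈ range M, ‖w β γ (q * j) - 1‖ ≤ ∑ j ∈ range M, (1 / 8 : ℝ) := by
        apply sum_le_sum
        intro j hj
        rw [mem_range] at hj
        refine le_trans (norm_w_sub_one hβ (N := N) ?_) hδ
        exact Nat.mul_le_mul_left q hj.le
      refine le_trans this ?_
      rw [sum_const, card_range, nsmul_eq_mul]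
    rw [h1]
    have h3 : ‖(M : ℂ)‖ - ‖∑ j ∈ range M, (w β γ (q * j) - 1)‖ ≤
        ‖(M : ℂ) + ∑ j ∈ range M, (w β γ (q * j) - 1)‖ := by
      have := norm_sub_le ((M : ℂ) + ∑ j ∈ range M, (w β γ (q * j) - 1))
        (∑ j ∈ range M, (w β γ (q * j) - 1))
      rw [add_sub_cancel_right] at this
      linarith
    rw [Complex.norm_natCast] at h3
    linarith
  -- the error
  have herr : ‖∑ j ∈ range M, ∑ r ∈ range q, c r * (w β γ (q * j + r) - w β γ (q * j))‖ ≤
      q * (1 / 4) := by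
    have h1 : ∀ j ∈ range M, ‖∑ r ∈ range q, c r * (w β γ (q * j + r) - w β γ (q * j))‖ ≤
        q * (2 * Real.pi * (q * (2 * β * N + |γ|))) := by
      intro j hj
      rw [mem_range] at hj
      refine le_trans (norm_sum_le _ _) ?_
      have : ∑ r ∈ range q, ‖c r * (w β γ (q * j + r) - w β γ (q * j))‖ ≤
          ∑ r ∈ range q, 2 * Real.pi * (q * (2 * β * N + |γ|)) := by
        apply sum_le_sum
        intro r hr
        rw [mem_range] at hr
        rw [norm_mul, hc, norm_e, one_mul]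
        apply norm_w_sub hβ hr.le
        have : q * j + q ≤ q * M := by
          have : q * (j + 1) ≤ q * M := Nat.mul_le_mul_left q hj
          linarith
        omega
      refine le_trans this ?_
      rw [sum_const, card_range, nsmul_eq_mul]
    refine le_trans (norm_sum_le _ _) (le_trans (sum_le_sum h1) ?_)
    rw [sum_const, card_range, nsmul_eq_mul]
    have h2 : (M : ℝ) * (q * (2 * Real.pi * (q * (2 * β * N + |γ|)))) =
        q * (2 * Real.pi * (2 * (β * (N : ℝ) ^ 2) + |γ| * N)) := by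
      rw [hNc]
      ring
    rw [h2]
    apply mul_le_mul_of_nonneg_left _ hq0.le
    have h3 : 0 ≤ 2 * Real.pi * (|γ| * N) := by positivity
    nlinarith [Real.pi_pos]
  have hsq : (q : ℝ) ≤ Real.sqrt q * M := by
    have h1 : Real.sqrt q * Real.sqrt q = q := Real.mul_self_sqrt hq0.le
    have h2 : Real.sqrt q ≤ M := by
      have h3 : Real.sqrt q ≤ q := by
        rw [Real.sqrt_le_left hq0.le]
        have : (1 : ℝ) ≤ q := by exact_mod_cast hq
        nlinarith
      have h4 : (q : ℝ) ≤ M := by exact_mod_cast hM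
      linarith
    calc (q : ℝ) = Real.sqrt q * Real.sqrt q := h1.symm
      _ ≤ Real.sqrt q * M := mul_le_mul_of_nonneg_left h2 (Real.sqrt_nonneg _)
  rw [hS]
  have h5 := norm_sub_le (G * ∑ j ∈ range M, w β γ (q * j) +
      ∑ j ∈ range M, ∑ r ∈ range q, c r * (w β γ (q * j + r) - w β γ (q * j)))
      (∑ j ∈ range M, ∑ r ∈ range q, c r * (w β γ (q * j + r) - w β γ (q * j)))
  rw [add_sub_cancel_right, norm_mul, hGn] at h5
  have h6 : Real.sqrt q * (M * (1 - 1 / 8)) ≤ Real.sqrt q * ‖∑ j ∈ range M, w β γ (q * j)‖ :=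
    mul_le_mul_of_nonneg_left hmain (Real.sqrt_nonneg _)
  nlinarith [Real.sqrt_nonneg (q : ℝ)]

end Pool.Agent.U796.WM
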