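import Mathlib
import Pool.Agent.U796.WM.Lower

/-!
# The lacunary number `θ = ∑ 3^{-n_k}`, `n_{k+1} = ⌈ρ n_k⌉`
-/

set_option autoImplicit false

open Finset

namespace Pool.Agent.U796.WM

open Pool.Agent.H520R3

/-- the exponents -/
noncomputable def nn (ρ : ℝ) : ℕ → ℕ
  | 0 => 1
  | k + 1 => ⌈ρ * nn ρ k⌉₊

lemma nn_succ (ρ : ℝ) (k : ℕ) : nn ρ (k + 1) = ⌈ρ * nn ρ k⌉₊ := rfl

lemma nn_ge (ρ : ℝ) (k : ℕ) : ρ * nn ρ k ≤ nn ρ (k + 1) := Nat.le_ceil _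

lemma nn_le {ρ : ℝ} (hρ : 4 < ρ) (k : ℕ) : (nn ρ (k + 1) : ℝ) ≤ ρ * nn ρ k + 1 :=
  (Nat.ceil_lt_add_one (by positivity)).le

lemma nn_pos {ρ : ℝ} (hρ : 4 < ρ) (k : ℕ) : 1 ≤ nn ρ k := by
  induction k with
  | zero => exact le_rfl
  | succ k ih =>
    have h1 := nn_ge ρ k
    have h2 : (1 : ℝ) ≤ nn ρ k := by exact_mod_cast ih
    have h3 : (1 : ℝ) ≤ nn ρ (k + 1) := by nlinarith
    exact_mod_cast h3

lemma nn_four {ρ : ℝ} (hρ : 4 < ρ) (k : ℕ) : 4 * nn ρ k + 1 ≤ nn ρ (k + 1) := by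
  have h1 := nn_ge ρ k
  have h2 : (1 : ℝ) ≤ nn ρ k := by exact_mod_cast nn_pos hρ k
  have h3 : ((4 * nn ρ k : ℕ) : ℝ) < nn ρ (k + 1) := by
    push_cast
    nlinarith
  have h4 : 4 * nn ρ k < nn ρ (k + 1) := by exact_mod_cast h3
  exact h4

lemma nn_strictMono {ρ : ℝ} (hρ : 4 < ρ) : StrictMono (nn ρ) :=
  strictMono_nat_of_lt_succ (fun k => by
    have := nn_four hρ k
    omega)

/-- the first `n` digits of `c`, read as an integer in base `3` -/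
def num (c : ℕ → Fin 3) : ℕ → ℕ
  | 0 => 0
  | n + 1 => 3 * num c n + c n

lemma sum_digits (c : ℕ → Fin 3) (n : ℕ) :
    ∑ i ∈ range n, Real.ofDigitsTerm c i = (num c n : ℝ) / 3 ^ n := by
  induction n with
  | zero => simp [num]
  | succ n ih =>
    rw [sum_range_succ, ih, num, Real.ofDigitsTerm]
    push_cast
    field_simp
    ring

lemma ofDigits_eq (c : ℕ → Fin 3) (n : ℕ) :
    Real.ofDigits c = (num c n : ℝ) / 3 ^ n + ((3 : ℝ) ^ n)⁻¹ * Real.ofDigits (fun i => c (i + n)) := by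
  have := Real.ofDigits_eq_sum_add_ofDigits c n
  rw [sum_digits] at this
  exact_mod_cast this

lemma num_zero (c : ℕ → Fin 3) (m : ℕ) (h : ∀ i < m, c i = 0) : num c m = 0 := by
  induction m with
  | zero => rfl
  | succ m ih => rw [num, ih (fun i hi => h i (by omega)), h m (by omega)]; rfl

/-- a block of zero digits -/
lemma ofDigits_zero_block (c : ℕ → Fin 3) (m : ℕ) (h : ∀ i < m, c i = 0) :
    Real.ofDigits c = ((3 : ℝ) ^ m)⁻¹ * Real.ofDigits (fun i => c (i + m)) := by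
  rw [ofDigits_eq c m, num_zero c m h]
  simp

open Classical in
/-- the digits of `θ` -/
noncomputable def td (ρ : ℝ) (j : ℕ) : Fin 3 := if ∃ k, j + 1 = nn ρ k then 1 else 0

/-- `θ` -/
noncomputable def theta (ρ : ℝ) : ℝ := Real.ofDigits (td ρ)

/-- the distance of `θ` to `p_k / 3^{n_k}` -/
noncomputable def bet (ρ : ℝ) (k : ℕ) : ℝ :=
  ((3 : ℝ) ^ nn ρ k)⁻¹ * Real.ofDigits (fun i => td ρ (i + nn ρ k))

lemma theta_eq (ρ : ℝ) (k : ℕ) :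
    theta ρ = (num (td ρ) (nn ρ k) : ℝ) / ((3 ^ nn ρ k : ℕ) : ℝ) + bet ρ k := by
  rw [theta, ofDigits_eq _ (nn ρ k), bet]
  push_cast
  rfl

lemma bet_bounds {ρ : ℝ} (hρ : 4 < ρ) (k : ℕ) :
    ((3 : ℝ) ^ nn ρ (k + 1))⁻¹ ≤ bet ρ k ∧ bet ρ k ≤ 2 * ((3 : ℝ) ^ nn ρ (k + 1))⁻¹ := by
  obtain ⟨m, hm⟩ : ∃ m, nn ρ (k + 1) = nn ρ k + m + 1 := by
    have := nn_four hρ k
    exact ⟨nn ρ (k + 1) - nn ρ k - 1, by omega⟩
  have h1 : ∀ i < m, (fun i => td ρ (i + nn ρ k)) i = 0 := by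
    intro i hi
    simp only [td]
    rw [if_neg]
    rintro ⟨l, hl⟩
    have h2 : nn ρ k < nn ρ l := by omega
    have h3 : nn ρ l < nn ρ (k + 1) := by omega
    rw [(nn_strictMono hρ).lt_iff_lt] at h2 h3
    omega
  have h2 := ofDigits_zero_block _ m h1
  have h3 := ofDigits_eq (fun i => td ρ (i + m + nn ρ k)) 1
  have h4 : num (fun i => td ρ (i + m + nn ρ k)) 1 = 1 := by
    simp only [num, td]
    rw [if_pos]
    · rfl
    · exact ⟨k + 1, by omega⟩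
  rw [h4] at h3
  have h5 := Real.ofDigits_nonneg (fun i => td ρ (i + 1 + m + nn ρ k))
  have h6 := Real.ofDigits_le_one (fun i => td ρ (i + 1 + m + nn ρ k))
  have e1 : bet ρ k = ((3 : ℝ) ^ nn ρ (k + 1))⁻¹ *
      (1 + Real.ofDigits (fun i => td ρ (i + 1 + m + nn ρ k))) := by
    rw [bet, h2, h3, hm]
    have : (3 : ℝ) ^ (nn ρ k + m + 1) = 3 ^ nn ρ k * 3 ^ m * 3 := by ring
    rw [this]
    field_simp
    norm_num
  have h7 : 0 < ((3 : ℝ) ^ nn ρ (k + 1))⁻¹ := by positivity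
  rw [e1]
  constructor <;> nlinarith

lemma bet_pos {ρ : ℝ} (hρ : 4 < ρ) (k : ℕ) : 0 < bet ρ k :=
  lt_of_lt_of_le (by positivity) (bet_bounds hρ k).1

lemma theta_mem {ρ : ℝ} (hρ : 4 < ρ) : 0 ≤ theta ρ ∧ theta ρ < 1 := by
  refine ⟨Real.ofDigits_nonneg _, ?_⟩
  have h1 := theta_eq ρ 0
  have h2 := (bet_bounds hρ 0).2
  have h3 : num (td ρ) (nn ρ 0) = 1 := by
    simp only [nn, num, td]
    rw [if_pos ⟨0, rfl⟩]
    rfl
  rw [h3] at h1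
  have h4 : (3 : ℝ) ^ 2 ≤ 3 ^ nn ρ (0 + 1) := by
    apply pow_le_pow_right₀ (by norm_num)
    have := nn_four hρ 0
    have := nn_pos hρ 0
    omega
  have h5 : ((3 : ℝ) ^ nn ρ (0 + 1))⁻¹ ≤ (3 ^ 2 : ℝ)⁻¹ := inv_anti₀ (by positivity) h4
  have h6 : nn ρ 0 = 1 := rfl
  rw [h6] at h1
  norm_num at h1 h5 ⊢
  norm_num at h2
  linarith

lemma num_coprime {ρ : ℝ} (k : ℕ) (hk : 1 ≤ nn ρ k) :
    Nat.Coprime (num (td ρ) (nn ρ k)) (3 ^ nn ρ k) := by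
  apply Nat.Coprime.pow_right
  obtain ⟨m, hm⟩ := Nat.exists_eq_add_of_le' hk
  rw [hm, num]
  have h1 : td ρ m = 1 := by
    simp only [td]
    rw [if_pos ⟨k, hm.symm⟩]
  rw [h1]
  show Nat.gcd (3 * num (td ρ) m + 1) 3 = 1
  rw [add_comm, Nat.gcd_comm]
  simp

lemma two_num_coprime {ρ : ℝ} (k : ℕ) (hk : 1 ≤ nn ρ k) :
    Nat.Coprime (3 ^ nn ρ k) (2 * num (td ρ) (nn ρ k)) := by
  apply Nat.Coprime.mul_right
  · apply Nat.Coprime.pow_left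
    decide
  · exact (num_coprime k hk).symm

end Pool.Agent.U796.WM
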