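import Mathlib
import Pool.Agent.U796.WM.Theta

/-!
# The upper bound `|S(x, θ; N)|² ≤ C N^{2α} (1 + log N)`, uniformly in `x`
-/

set_option autoImplicit false

open Finset Filter

namespace Pool.Agent.U796.WM

open Pool.Agent.H520R3

/-- the relation between `ρ` and `α` -/
structure Par (α ρ : ℝ) : Prop where
  h1 : 3 / 4 < α
  h2 : α < 1
  h3 : (1 - α) * ρ = 1

lemma Par.rho {α ρ : ℝ} (h : Par α ρ) : 4 < ρ := by
  obtain ⟨h1, h2, h3⟩ := h
  by_contra hcon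
  push Not at hcon
  nlinarith

lemma min_le_rpow {X Y α : ℝ} (hX : 0 < X) (hY : 0 < Y) (h0 : 0 ≤ α) (h1 : α ≤ 1) :
    min X Y ≤ X ^ α * Y ^ (1 - α) := by
  have hm : 0 < min X Y := lt_min hX hY
  calc min X Y = (min X Y) ^ α * (min X Y) ^ (1 - α) := by
        rw [← Real.rpow_add hm]
        simp
    _ ≤ X ^ α * Y ^ (1 - α) := by
        apply mul_le_mul
        · exact Real.rpow_le_rpow hm.le (min_le_left _ _) h0
        · exact Real.rpow_le_rpow hm.le (min_le_right _ _) (by linarith)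
        · positivity
        · positivity

/-- the third term -/
lemma third {α ρ : ℝ} (h : Par α ρ) (k N : ℕ) (hN : 1 ≤ N) :
    min ((N : ℝ) ^ 2 / ((3 ^ nn ρ k : ℕ) : ℝ))
      (1 / (2 * (((3 ^ nn ρ k : ℕ) : ℝ) * (2 * bet ρ k))) * (1 + Real.log N)) ≤
      3 * ((N : ℝ) ^ (2 * α) * (1 + Real.log N)) := by
  have hρ := h.rho
  obtain ⟨h1, h2, h3⟩ := h
  have hN0 : (0 : ℝ) < N := by exact_mod_cast hN
  set L := 1 + Real.log (N : ℝ) with hL
  have hL1 : 1 ≤ L := by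
    have := Real.log_natCast_nonneg N
    linarith
  set n := nn ρ k with hn
  set n' := nn ρ (k + 1) with hn'
  have hq : (((3 ^ n : ℕ)) : ℝ) = (3 : ℝ) ^ (n : ℝ) := by
    push_cast
    rw [Real.rpow_natCast]
  have hb := (bet_bounds hρ k).1
  rw [← hn'] at hb
  have hb0 := bet_pos hρ k
  have hY : 1 / (2 * (((3 ^ n : ℕ) : ℝ) * (2 * bet ρ k))) * L ≤ (3 : ℝ) ^ ((n' : ℝ) - n) * L := by
    apply mul_le_mul_of_nonneg_right _ (by linarith)
    rw [hq, Real.rpow_sub (by norm_num), Real.rpow_natCast 3 n']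
    have e1 : 1 / (2 * ((3 : ℝ) ^ (n : ℝ) * (2 * bet ρ k))) = (bet ρ k)⁻¹ / 4 / 3 ^ (n : ℝ) := by
      field_simp
      norm_num
    rw [e1]
    apply div_le_div_of_nonneg_right _ (by positivity)
    have h5 : (bet ρ k)⁻¹ ≤ ((3 : ℝ) ^ n')  := by
      rw [inv_le_comm₀ hb0 (by positivity)]
      exact hb
    have : 0 < (3 : ℝ) ^ n' := by positivity
    linarith
  refine le_trans (min_le_min_left _ hY) ?_
  rw [hq]
  refine le_trans (min_le_rpow (by positivity) (by positivity) (by linarith : (0:ℝ) ≤ α) h2.le) ?_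
  have e1 : ((N : ℝ) ^ 2 / 3 ^ (n : ℝ)) ^ α = (N : ℝ) ^ (2 * α) * 3 ^ (-(α * n)) := by
    rw [Real.div_rpow (by positivity) (by positivity), ← Real.rpow_natCast (N : ℝ) 2,
      ← Real.rpow_mul hN0.le, ← Real.rpow_mul (by norm_num), Real.rpow_neg (by norm_num)]
    rw [div_eq_mul_inv]
    congr 2
    rw [mul_comm]
  have e2 : ((3 : ℝ) ^ ((n' : ℝ) - n) * L) ^ (1 - α) = 3 ^ (((n' : ℝ) - n) * (1 - α)) * L ^ (1 - α) := by
    rw [Real.mul_rpow (by positivity) (by linarith), ← Real.rpow_mul (by norm_num)]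
  rw [e1, e2]
  have h6 : L ^ (1 - α) ≤ L := by
    calc L ^ (1 - α) ≤ L ^ (1 : ℝ) := Real.rpow_le_rpow_of_exponent_le hL1 (by linarith)
      _ = L := Real.rpow_one L
  have h7 : (3 : ℝ) ^ (-(α * n)) * 3 ^ (((n' : ℝ) - n) * (1 - α)) ≤ 3 := by
    rw [← Real.rpow_add (by norm_num)]
    calc (3 : ℝ) ^ (-(α * n) + ((n' : ℝ) - n) * (1 - α)) ≤ 3 ^ (1 : ℝ) := by
          apply Real.rpow_le_rpow_of_exponent_le (by norm_num)
          have h8 := nn_le hρ k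
          rw [← hn, ← hn'] at h8
          have h9 : (n' : ℝ) * (1 - α) ≤ (ρ * n + 1) * (1 - α) :=
            mul_le_mul_of_nonneg_right h8 (by linarith)
          have h10 : (ρ * n + 1) * (1 - α) = n + (1 - α) := by
            linear_combination (n : ℝ) * h3
          linarith
      _ = 3 := Real.rpow_one 3
  calc (N : ℝ) ^ (2 * α) * 3 ^ (-(α * n)) * (3 ^ (((n' : ℝ) - n) * (1 - α)) * L ^ (1 - α))
      = (N : ℝ) ^ (2 * α) * ((3 ^ (-(α * n)) * 3 ^ (((n' : ℝ) - n) * (1 - α))) * L ^ (1 - α)) := by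
        ring
    _ ≤ (N : ℝ) ^ (2 * α) * (3 * L) := by
        apply mul_le_mul_of_nonneg_left _ (by positivity)
        apply mul_le_mul h7 h6 (by positivity) (by norm_num)
    _ = 3 * ((N : ℝ) ^ (2 * α) * L) := by ring

lemma log_nine : Real.log 9 ≤ 3 := by
  rw [Real.log_le_iff_le_exp (by norm_num)]
  have h1 : Real.exp 3 = Real.exp 1 ^ 3 := by
    rw [← Real.exp_nat_mul]
    norm_num
  rw [h1]
  have h2 := Real.exp_one_gt_d9
  have h3 : (2.5 : ℝ) ≤ Real.exp 1 := by linarith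
  calc (9 : ℝ) ≤ 2.5 ^ 3 := by norm_num
    _ ≤ Real.exp 1 ^ 3 := by gcongr

/-- the second term -/
lemma second {α ρ : ℝ} (h : Par α ρ) (k N : ℕ) (hN : 1 ≤ N)
    (hk : (3 : ℝ) ^ (nn ρ (k + 1) - nn ρ k) ≤ 9 * N) :
    (((3 ^ nn ρ (k + 1) : ℕ)) : ℝ) ≤ 81 * (N : ℝ) ^ (2 * α) ∧
      1 + Real.log (((3 ^ nn ρ (k + 1) : ℕ)) : ℝ) ≤ 6 * (1 + Real.log N) := by
  have hρ := h.rho
  obtain ⟨h1, h2, h3⟩ := h
  have hN0 : (0 : ℝ) < N := by exact_mod_cast hN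
  have hN1 : (1 : ℝ) ≤ N := by exact_mod_cast hN
  set n' := nn ρ (k + 1) with hn'
  set n := nn ρ k with hn
  have hmono : n ≤ n' := ((nn_strictMono hρ) (Nat.lt_succ_self k)).le
  have hge := nn_ge ρ k
  rw [← hn, ← hn'] at hge
  -- `α n' ≤ n' - n`
  have h4 : α * n' ≤ ((n' - n : ℕ) : ℝ) := by
    push_cast [Nat.cast_sub hmono]
    have : (1 - α) * (ρ * n) ≤ (1 - α) * n' := mul_le_mul_of_nonneg_left hge (by linarith)
    have e : (1 - α) * (ρ * n) = n := by linear_combination (n : ℝ) * h3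
    linarith
  have h5 : (3 : ℝ) ^ (α * (n' : ℝ)) ≤ 9 * N := by
    refine le_trans ?_ hk
    rw [← Real.rpow_natCast 3 (n' - n)]
    exact Real.rpow_le_rpow_of_exponent_le (by norm_num) h4
  have hlog : α * n' * Real.log 3 ≤ Real.log 9 + Real.log N := by
    have := Real.log_le_log (by positivity) h5
    rw [Real.log_rpow (by norm_num), Real.log_mul (by norm_num) (by positivity)] at this
    exact this
  have hn0 : (0 : ℝ) ≤ n' := Nat.cast_nonneg _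
  constructor
  · have h6 : ((3 : ℝ) ^ (α * (n' : ℝ))) ^ (2 * α) ≤ (9 * N) ^ (2 * α) :=
      Real.rpow_le_rpow (by positivity) h5 (by linarith)
    rw [← Real.rpow_mul (by norm_num), Real.mul_rpow (by norm_num) hN0.le] at h6
    have h7 : (9 : ℝ) ^ (2 * α) ≤ 81 := by
      calc (9 : ℝ) ^ (2 * α) ≤ 9 ^ (2 : ℝ) :=
            Real.rpow_le_rpow_of_exponent_le (by norm_num) (by linarith)
        _ = 81 := by
            rw [show (2 : ℝ) = ((2 : ℕ) : ℝ) by norm_num, Real.rpow_natCast]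
            norm_num
    have h8 : (((3 ^ n' : ℕ)) : ℝ) ≤ (3 : ℝ) ^ (α * (n' : ℝ) * (2 * α)) := by
      push_cast
      rw [← Real.rpow_natCast 3 n']
      apply Real.rpow_le_rpow_of_exponent_le (by norm_num)
      have : (1 : ℝ) ≤ α * (2 * α) := by nlinarith
      nlinarith
    calc (((3 ^ n' : ℕ)) : ℝ) ≤ (3 : ℝ) ^ (α * (n' : ℝ) * (2 * α)) := h8
      _ ≤ (9 : ℝ) ^ (2 * α) * (N : ℝ) ^ (2 * α) := h6
      _ ≤ 81 * (N : ℝ) ^ (2 * α) := by gcongr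
  · push_cast
    rw [Real.log_pow]
    have h9 := log_nine
    have hl3 : 0 ≤ Real.log 3 := Real.log_nonneg (by norm_num)
    have hlN : 0 ≤ Real.log (N : ℝ) := Real.log_nonneg hN1
    have h10 : 0 ≤ (n' : ℝ) * Real.log 3 := by positivity
    nlinarith

theorem S_theta_le {α ρ : ℝ} (h : Par α ρ) : ∃ N0 : ℕ, ∀ N, N0 ≤ N → ∀ x : ℝ,
    ‖S x (theta ρ) N‖ ^ 2 ≤ 2500 * ((N : ℝ) ^ (2 * α) * (1 + Real.log N)) := by
  have hρ := h.rho
  refine ⟨3 ^ (nn ρ 1) + 1, ?_⟩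
  intro N hN x
  classical
  have hex : ∃ k, 9 * (N : ℝ) ≤ (3 : ℝ) ^ (nn ρ (k + 1) - nn ρ k) := by
    refine ⟨9 * N, ?_⟩
    have h1 : 9 * N ≤ nn ρ (9 * N + 1) - nn ρ (9 * N) := by
      have h2 := nn_four hρ (9 * N)
      have h3 : 9 * N ≤ nn ρ (9 * N) := (nn_strictMono hρ).id_le _
      omega
    have h4 : 9 * N < 3 ^ (9 * N) := Nat.lt_pow_self (by norm_num)
    have h5 : (9 * N : ℕ) ≤ 3 ^ (nn ρ (9 * N + 1) - nn ρ (9 * N)) :=
      le_trans h4.le (Nat.pow_le_pow_right (by norm_num) h1)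
    exact_mod_cast h5
  obtain ⟨k, hk, hmin⟩ : ∃ k, 9 * (N : ℝ) ≤ (3 : ℝ) ^ (nn ρ (k + 1) - nn ρ k) ∧
      ∀ j < k, ¬ 9 * (N : ℝ) ≤ (3 : ℝ) ^ (nn ρ (j + 1) - nn ρ j) :=
    ⟨Nat.find hex, Nat.find_spec hex, fun j hj => Nat.find_min hex hj⟩
  have hN1 : 1 ≤ N := le_trans (Nat.le_add_left 1 _) hN
  have hN0 : (0 : ℝ) < N := by exact_mod_cast hN1
  have hN1' : (1 : ℝ) ≤ N := by exact_mod_cast hN1
  have hk0 : k ≠ 0 := by
    rintro rfl
    have h1 : (3 : ℝ) ^ (nn ρ (0 + 1) - nn ρ 0) ≤ 3 ^ nn ρ 1 :=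
      pow_le_pow_right₀ (by norm_num) (Nat.sub_le _ _)
    have h2 : (3 : ℝ) ^ nn ρ 1 < N := by exact_mod_cast hN
    linarith
  obtain ⟨j, rfl⟩ := Nat.exists_eq_succ_of_ne_zero hk0
  have hj := hmin j (Nat.lt_succ_self j)
  push Not at hj
  obtain ⟨h2a, h2b⟩ := second h j N hN1 hj.le
  have hmono : nn ρ (j + 1) ≤ nn ρ (j + 2) := ((nn_strictMono hρ) (Nat.lt_succ_self _)).le
  have hbb := bet_bounds hρ (j + 1)
  have hb0 := bet_pos hρ (j + 1)
  have hcond : 2 * (N : ℝ) * ((3 ^ nn ρ (j + 1) : ℕ) : ℝ) * (2 * bet ρ (j + 1)) ≤ 1 := by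
    have h3 : (3 : ℝ) ^ (nn ρ (j + 2) - nn ρ (j + 1)) = 3 ^ nn ρ (j + 2) / 3 ^ nn ρ (j + 1) := by
      rw [pow_sub₀ _ (by norm_num) hmono, div_eq_mul_inv]
    have h4 : 9 * (N : ℝ) * 3 ^ nn ρ (j + 1) ≤ 3 ^ nn ρ (j + 2) := by
      have h5 : 9 * (N : ℝ) ≤ 3 ^ nn ρ (j + 2) / 3 ^ nn ρ (j + 1) := by
        rw [← h3]; exact hk
      rwa [le_div_iff₀ (by positivity)] at h5
    push_cast
    calc 2 * (N : ℝ) * 3 ^ nn ρ (j + 1) * (2 * bet ρ (j + 1))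
        ≤ 2 * (N : ℝ) * 3 ^ nn ρ (j + 1) * (2 * (2 * ((3 : ℝ) ^ nn ρ (j + 1 + 1))⁻¹)) := by
          gcongr
          exact hbb.2
      _ = (8 * (N : ℝ) * 3 ^ nn ρ (j + 1)) / 3 ^ nn ρ (j + 2) := by
          rw [div_eq_mul_inv]
          ring
      _ ≤ 1 := by
          rw [div_le_one (by positivity)]
          nlinarith [show 0 < (N : ℝ) * 3 ^ nn ρ (j + 1) by positivity]
  have hup := S_upper (q := 3 ^ nn ρ (j + 1)) (a := 2 * num (td ρ) (nn ρ (j + 1)))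
    (Nat.one_le_pow _ _ (by norm_num)) (two_num_coprime (j + 1) (nn_pos hρ _))
    (B := 2 * bet ρ (j + 1)) (by positivity) (N := N) hcond x (theta ρ) (by
      rw [theta_eq ρ (j + 1)]
      push_cast
      ring)
  have h3 := third h (j + 1) N hN1
  have hα := h.h1
  have h4 : (N : ℝ) ≤ (N : ℝ) ^ (2 * α) := by
    calc (N : ℝ) = (N : ℝ) ^ (1 : ℝ) := (Real.rpow_one _).symm
      _ ≤ (N : ℝ) ^ (2 * α) := Real.rpow_le_rpow_of_exponent_le hN1' (by linarith)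
  set L := 1 + Real.log (N : ℝ) with hL
  have hL1 : 1 ≤ L := by
    have := Real.log_natCast_nonneg N
    linarith
  set Z := (N : ℝ) ^ (2 * α) with hZ
  have hZ0 : 0 < Z := by positivity
  have hlog0 : 0 ≤ 1 + Real.log (((3 ^ nn ρ (j + 1) : ℕ)) : ℝ) := by
    have := Real.log_natCast_nonneg (3 ^ nn ρ (j + 1))
    linarith
  have h5 : 2 * ((N : ℝ) + ((3 ^ nn ρ (j + 1) : ℕ) : ℝ)) * (1 + Real.log (((3 ^ nn ρ (j + 1) : ℕ)) : ℝ))
      ≤ 2 * (Z + 81 * Z) * (6 * L) := by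
    apply mul_le_mul _ h2b hlog0 (by positivity)
    linarith
  have h6 : Z ≤ Z * L := by nlinarith
  refine le_trans hup ?_
  nlinarith

end Pool.Agent.U796.WM
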