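import Mathlib
import Pool.Agent.U796.WM.Up

/-!
# The Cantor set of linear coefficients
-/

set_option autoImplicit false

open Finset Filter

namespace Pool.Agent.U796.WM

open Pool.Agent.H520R3

/-- the free positions -/
def FP (ρ : ℝ) (j : ℕ) : Prop := ∃ k, nn ρ (k + 1) / 2 ≤ j ∧ j < nn ρ (k + 1)

open Classical in
/-- digits of the linear coefficient attached to the binary sequence `b` -/
noncomputable def xd (ρ : ℝ) (b : ℕ → Fin 2) (j : ℕ) : Fin 3 :=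
  if FP ρ j ∧ b (Nat.count (FP ρ) j) = 1 then 2 else 0

/-- the linear coefficient attached to `b` -/
noncomputable def xx (ρ : ℝ) (b : ℕ → Fin 2) : ℝ := Real.ofDigits (xd ρ b)

lemma xd_zero {ρ : ℝ} (hρ : 4 < ρ) (b : ℕ → Fin 2) {k j : ℕ} (h1 : nn ρ k ≤ j)
    (h2 : j < nn ρ (k + 1) / 2) : xd ρ b j = 0 := by
  unfold xd
  rw [if_neg]
  rintro ⟨⟨l, hl1, hl2⟩, -⟩
  have h3 : nn ρ k < nn ρ (l + 1) := lt_of_le_of_lt h1 hl2
  rw [(nn_strictMono hρ).lt_iff_lt] at h3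
  have h4 : nn ρ (k + 1) ≤ nn ρ (l + 1) := (nn_strictMono hρ).monotone (by omega)
  have h5 : nn ρ (k + 1) / 2 ≤ nn ρ (l + 1) / 2 := Nat.div_le_div_right h4
  omega

lemma xx_eq {ρ : ℝ} (hρ : 4 < ρ) (b : ℕ → Fin 2) (k : ℕ) :
    ∃ γ : ℝ, 0 ≤ γ ∧ γ ≤ ((3 : ℝ) ^ (nn ρ (k + 1) / 2))⁻¹ ∧
      xx ρ b = (num (xd ρ b) (nn ρ k) : ℝ) / ((3 ^ nn ρ k : ℕ) : ℝ) + γ := by
  obtain ⟨m, hm⟩ : ∃ m, nn ρ (k + 1) / 2 = nn ρ k + m := by
    have := nn_four hρ k
    exact ⟨nn ρ (k + 1) / 2 - nn ρ k, by omega⟩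
  have h1 : ∀ i < m, (fun i => xd ρ b (i + nn ρ k)) i = 0 := by
    intro i hi
    exact xd_zero hρ b (k := k) (by omega) (by omega)
  have h2 := ofDigits_zero_block _ m h1
  have h3 := ofDigits_eq (xd ρ b) (nn ρ k)
  rw [h2] at h3
  refine ⟨((3 : ℝ) ^ nn ρ k)⁻¹ * (((3 : ℝ) ^ m)⁻¹ *
    Real.ofDigits (fun i => xd ρ b (i + m + nn ρ k))), ?_, ?_, ?_⟩
  · have := Real.ofDigits_nonneg (fun i => xd ρ b (i + m + nn ρ k))
    positivity
  · have h4 := Real.ofDigits_le_one (fun i => xd ρ b (i + m + nn ρ k))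
    rw [hm, pow_add, mul_inv, ← mul_assoc]
    exact mul_le_of_le_one_right (by positivity) h4
  · rw [xx, h3]
    push_cast
    rfl

lemma xx_mem {ρ : ℝ} (hρ : 4 < ρ) (b : ℕ → Fin 2) : 0 ≤ xx ρ b ∧ xx ρ b < 1 := by
  refine ⟨Real.ofDigits_nonneg _, ?_⟩
  obtain ⟨γ, h0, h1, h2⟩ := xx_eq hρ b 0
  have h3 : num (xd ρ b) (nn ρ 0) = 0 := by
    apply num_zero
    intro i hi
    have hi0 : i = 0 := by
      have : nn ρ 0 = 1 := rfl
      omega
    subst hi0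
    unfold xd
    rw [if_neg]
    rintro ⟨⟨l, hl1, hl2⟩, -⟩
    have := nn_four hρ l
    have := nn_pos hρ l
    omega
  rw [h3] at h2
  rw [h2]
  have h4 : (3 : ℝ) ^ 1 ≤ 3 ^ (nn ρ (0 + 1) / 2) := by
    apply pow_le_pow_right₀ (by norm_num)
    have := nn_four hρ 0
    have := nn_pos hρ 0
    omega
  have h5 : ((3 : ℝ) ^ (nn ρ (0 + 1) / 2))⁻¹ ≤ (3 ^ 1 : ℝ)⁻¹ := inv_anti₀ (by positivity) h4
  norm_num at h5 ⊢
  norm_num at h1
  linarith

theorem S_xx_ge {α ρ : ℝ} (h : Par α ρ) (b : ℕ → Fin 2) (K : ℕ) :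
    ∃ N, K ≤ N ∧ 1 / 18 * (N : ℝ) ^ α ≤ ‖S (xx ρ b) (theta ρ) N‖ := by
  have hρ := h.rho
  obtain ⟨ha1, ha2, ha3⟩ := h
  obtain ⟨k, hk⟩ : ∃ k : ℕ, k = K + ⌈9 / (ρ - 4)⌉₊ := ⟨_, rfl⟩
  have hkn : k ≤ nn ρ k := (nn_strictMono hρ).id_le k
  have hρ4 : 0 < ρ - 4 := by linarith
  have hbig : 4 * nn ρ k + 9 ≤ nn ρ (k + 1) := by
    have h1 := nn_ge ρ k
    have h2 : 9 / (ρ - 4) ≤ nn ρ k := by
      have h3 := Nat.le_ceil (9 / (ρ - 4))
      have h4 : ((⌈9 / (ρ - 4)⌉₊ : ℕ) : ℝ) ≤ (nn ρ k : ℝ) := by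
        have : ⌈9 / (ρ - 4)⌉₊ ≤ nn ρ k := by omega
        exact_mod_cast this
      linarith
    rw [div_le_iff₀ hρ4] at h2
    have h5 : ((4 * nn ρ k + 9 : ℕ) : ℝ) ≤ nn ρ (k + 1) := by
      push_cast
      linarith
    exact_mod_cast h5
  obtain ⟨m, hm⟩ : ∃ m, nn ρ (k + 1) / 2 = m + 4 + nn ρ k := by
    exact ⟨nn ρ (k + 1) / 2 - 4 - nn ρ k, by omega⟩
  have hmk : nn ρ k ≤ m := by omega
  obtain ⟨γ, hγ0, hγ1, hγ⟩ := xx_eq hρ b k
  have hbb := bet_bounds hρ k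
  have hb0 := bet_pos hρ k
  set n := nn ρ k with hn
  have hN : (((3 ^ n * 3 ^ m : ℕ)) : ℝ) = (3 : ℝ) ^ (m + n) := by
    push_cast
    rw [← pow_add, add_comm]
  have hβN : bet ρ k * ((3 : ℝ) ^ (m + n)) ^ 2 ≤ 2 / 6561 := by
    have h1 : ((3 : ℝ) ^ (m + n)) ^ 2 * 6561 ≤ 3 ^ nn ρ (k + 1) := by
      have e : ((3 : ℝ) ^ (m + n)) ^ 2 * 6561 = 3 ^ (2 * (m + n) + 8) := by
        rw [pow_add (3 : ℝ) (2 * (m + n)) 8, pow_mul' (3 : ℝ) 2 (m + n)]
        norm_num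
      rw [e]
      apply pow_le_pow_right₀ (by norm_num)
      omega
    calc bet ρ k * ((3 : ℝ) ^ (m + n)) ^ 2 ≤ 2 * ((3 : ℝ) ^ nn ρ (k + 1))⁻¹ * ((3 : ℝ) ^ (m + n)) ^ 2 := by
          gcongr
          exact hbb.2
      _ = 2 * (((3 : ℝ) ^ (m + n)) ^ 2) / 3 ^ nn ρ (k + 1) := by
          rw [div_eq_mul_inv]; ring
      _ ≤ 2 / 6561 := by
          rw [div_le_div_iff₀ (by positivity) (by norm_num)]
          linarith
  have hγN : |γ| * (3 : ℝ) ^ (m + n) ≤ 1 / 81 := by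
    rw [abs_of_nonneg hγ0]
    have e : (3 : ℝ) ^ (nn ρ (k + 1) / 2) = 3 ^ (m + n) * 81 := by
      rw [hm, show m + 4 + n = (m + n) + 4 by ring, pow_add (3 : ℝ) (m + n) 4]
      norm_num
    calc γ * (3 : ℝ) ^ (m + n) ≤ ((3 : ℝ) ^ (nn ρ (k + 1) / 2))⁻¹ * (3 : ℝ) ^ (m + n) := by gcongr
      _ = 1 / 81 := by
          rw [e]
          field_simp
      _ ≤ 1 / 81 := le_rfl
  have hlow := S_lower (q := 3 ^ n) (M := 3 ^ m) (p := num (td ρ) n) (num (xd ρ b) n : ℤ)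
    (Nat.one_le_pow _ _ (by norm_num)) (Nat.Coprime.pow_right _ (by decide))
    (num_coprime k (nn_pos hρ k)) (Nat.pow_le_pow_right (by norm_num) hmk) (β := bet ρ k) (γ := γ)
    hb0.le (by
      rw [hN]
      have hpi := Real.pi_lt_d2
      have hpi0 := Real.pi_pos
      have h1 : bet ρ k * ((3 : ℝ) ^ (m + n)) ^ 2 + |γ| * (3 : ℝ) ^ (m + n) ≤ 2 / 6561 + 1 / 81 :=
        add_le_add hβN hγN
      have h2 : 0 ≤ bet ρ k * ((3 : ℝ) ^ (m + n)) ^ 2 + |γ| * (3 : ℝ) ^ (m + n) := by positivity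
      calc 2 * Real.pi * (bet ρ k * ((3 : ℝ) ^ (m + n)) ^ 2 + |γ| * (3 : ℝ) ^ (m + n))
          ≤ 2 * 3.15 * (2 / 6561 + 1 / 81) := by
            apply mul_le_mul _ h1 h2 (by norm_num)
            linarith
        _ ≤ 1 / 8 := by norm_num)
  have hth := theta_eq ρ k
  rw [← hn] at hth
  have hxx : ((num (xd ρ b) n : ℤ) : ℝ) / ((3 ^ n : ℕ) : ℝ) + γ = xx ρ b := by
    rw [hγ]
    push_cast
    rfl
  rw [hxx, ← hth] at hlow
  refine ⟨3 ^ n * 3 ^ m, ?_, ?_⟩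
  · have h1 : K ≤ m := by omega
    have h2 : m < 3 ^ m := Nat.lt_pow_self (by norm_num)
    have h3 : 1 ≤ 3 ^ n := Nat.one_le_pow _ _ (by norm_num)
    nlinarith
  · refine le_trans ?_ hlow
    have hN' : (((3 ^ n * 3 ^ m : ℕ)) : ℝ) = (3 : ℝ) ^ (((m : ℝ) + n)) := by
      rw [hN, ← Real.rpow_natCast]
      push_cast
      rfl
    have hsq : Real.sqrt ((3 ^ n : ℕ) : ℝ) = (3 : ℝ) ^ ((n : ℝ) / 2) := by
      push_cast
      rw [Real.sqrt_eq_rpow, ← Real.rpow_natCast 3 n, ← Real.rpow_mul (by norm_num)]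
      congr 1
      ring
    have hM' : ((3 ^ m : ℕ) : ℝ) = (3 : ℝ) ^ (m : ℝ) := by
      push_cast
      rw [Real.rpow_natCast]
    rw [hN', hsq, hM', ← Real.rpow_mul (by norm_num), ← Real.rpow_add (by norm_num)]
    have h9 : (1 / 9 : ℝ) = (3 : ℝ) ^ (-2 : ℝ) := by
      rw [Real.rpow_neg (by norm_num), show (2 : ℝ) = ((2 : ℕ) : ℝ) by norm_num, Real.rpow_natCast]
      norm_num
    have h10 : 1 / 9 * (3 : ℝ) ^ (((m : ℝ) + n) * α) ≤ 3 ^ ((n : ℝ) / 2 + m) := by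
      rw [h9, ← Real.rpow_add (by norm_num)]
      apply Real.rpow_le_rpow_of_exponent_le (by norm_num)
      -- `(1-α)(m+n) ≥ n/2 - 2`
      have h11 := nn_ge ρ k
      rw [← hn] at h11
      have h12 : (nn ρ (k + 1) : ℝ) ≤ 2 * ((m : ℝ) + n) + 9 := by
        have : nn ρ (k + 1) ≤ 2 * (m + n) + 9 := by omega
        exact_mod_cast this
      have h13 : (1 - α) * (ρ * n) ≤ (1 - α) * (2 * ((m : ℝ) + n) + 9) :=
        mul_le_mul_of_nonneg_left (by linarith) (by linarith)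
      have e : (1 - α) * (ρ * n) = n := by linear_combination (n : ℝ) * ha3
      nlinarith
    calc 1 / 18 * (3 : ℝ) ^ (((m : ℝ) + n) * α) = 1 / 2 * (1 / 9 * (3 : ℝ) ^ (((m : ℝ) + n) * α)) := by
          ring
      _ ≤ 1 / 2 * (3 ^ ((n : ℝ) / 2 + m)) := by gcongr

/-! ### Hölder continuity of the coding -/

lemma FP_infinite {ρ : ℝ} (hρ : 4 < ρ) : (Set.ofPred (FP ρ)).Infinite := by
  rw [Set.infinite_iff_exists_gt]
  intro a
  refine ⟨nn ρ (a + 1 + 1) - 1, ⟨a + 1, ?_, ?_⟩, ?_⟩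
  · have := nn_four hρ (a + 1)
    omega
  · have := nn_four hρ (a + 1)
    omega
  · have h1 := nn_four hρ (a + 1)
    have h2 : a + 1 ≤ nn ρ (a + 1) := (nn_strictMono hρ).id_le _
    omega

open Classical in
lemma count_bound {ρ : ℝ} (hρ : 4 < ρ) {j : ℕ} (hj : FP ρ j) :
    (j : ℝ) + 1 ≤ (nn ρ 1 + 2 * ρ) * (Nat.count (FP ρ) j + 1) := by
  obtain ⟨k, hk1, hk2⟩ := hj
  have hn1 : (0 : ℝ) ≤ nn ρ 1 := Nat.cast_nonneg _
  have hc : (0 : ℝ) ≤ Nat.count (FP ρ) j := Nat.cast_nonneg _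
  rcases Nat.eq_zero_or_pos k with rfl | hk0
  · have : (j : ℝ) + 1 ≤ nn ρ 1 := by exact_mod_cast hk2
    nlinarith
  · obtain ⟨l, rfl⟩ : ∃ l, k = l + 1 := ⟨k - 1, by omega⟩
    have h1 : (Ico (nn ρ (l + 1) / 2) (nn ρ (l + 1))).card ≤ Nat.count (FP ρ) j := by
      rw [Nat.count_eq_card_filter_range]
      apply card_le_card
      intro i hi
      rw [mem_Ico] at hi
      rw [mem_filter, mem_range]
      refine ⟨?_, ⟨l, hi.1, hi.2⟩⟩
      have := nn_four hρ (l + 1)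
      omega
    rw [Nat.card_Ico] at h1
    have h2 : nn ρ (l + 1) ≤ 2 * Nat.count (FP ρ) j := by omega
    have h3 : (nn ρ (l + 1) : ℝ) ≤ 2 * Nat.count (FP ρ) j := by exact_mod_cast h2
    have h4 : (j : ℝ) + 1 ≤ nn ρ (l + 1 + 1) := by exact_mod_cast hk2
    have h5 := nn_le hρ (l + 1)
    have h6 : (1 : ℝ) ≤ nn ρ 1 := by exact_mod_cast nn_pos hρ 1
    nlinarith

open Classical in
lemma xd_congr {ρ : ℝ} {b b' : ℕ → Fin 2} {i j : ℕ} (h : ∀ l < i, b l = b' l)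
    (hj : FP ρ j → Nat.count (FP ρ) j < i) : xd ρ b j = xd ρ b' j := by
  unfold xd
  by_cases hP : FP ρ j
  · rw [h _ (hj hP)]
  · rw [if_neg (fun h => hP h.1), if_neg (fun h => hP h.1)]

lemma num_congr {c c' : ℕ → Fin 3} {n : ℕ} (h : ∀ i < n, c i = c' i) : num c n = num c' n := by
  induction n with
  | zero => rfl
  | succ n ih => rw [num, num, ih (fun i hi => h i (by omega)), h n (by omega)]

open Classical in
lemma xx_sep_aux {ρ : ℝ} (hρ : 4 < ρ) {b b' : ℕ → Fin 2} {i : ℕ} (h : ∀ l < i, b l = b' l)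
    (h1 : b i = 1) (h0 : b' i = 0) :
    ((3 : ℝ) ^ (Nat.nth (FP ρ) i + 1))⁻¹ ≤ xx ρ b - xx ρ b' := by
  set j := Nat.nth (FP ρ) i with hj
  have hinf := FP_infinite hρ
  have hcount : Nat.count (FP ρ) j = i := Nat.count_nth_of_infinite hinf i
  have hFj : FP ρ j := Nat.nth_mem_of_infinite hinf i
  have e1 := ofDigits_eq (xd ρ b) (j + 1)
  have e2 := ofDigits_eq (xd ρ b') (j + 1)
  have h3 : num (xd ρ b) j = num (xd ρ b') j := by
    apply num_congr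
    intro l hl
    apply xd_congr h
    intro hP
    rw [← hcount]
    exact Nat.count_strict_mono hP hl
  have h4 : xd ρ b j = 2 := by
    unfold xd
    rw [if_pos ⟨hFj, by rw [hcount]; exact h1⟩]
  have h5 : xd ρ b' j = 0 := by
    unfold xd
    rw [if_neg]
    rintro ⟨-, h6⟩
    rw [hcount, h0] at h6
    exact absurd h6 (by decide)
  rw [num, h3, h4] at e1
  rw [num, h5] at e2
  have h6 := Real.ofDigits_nonneg (fun i => xd ρ b (i + (j + 1)))
  have h7 := Real.ofDigits_le_one (fun i => xd ρ b' (i + (j + 1)))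
  rw [xx, xx, e1, e2]
  have h8 : (0 : ℝ) < ((3 : ℝ) ^ (j + 1))⁻¹ := by positivity
  have e3 : ((2 : Fin 3) : ℕ) = 2 := rfl
  have e4 : ((0 : Fin 3) : ℕ) = 0 := rfl
  rw [e3, e4]
  push_cast
  rw [div_eq_mul_inv, div_eq_mul_inv]
  nlinarith

open Classical in
/-- separation of the coded points -/
lemma xx_sep {ρ : ℝ} (hρ : 4 < ρ) {b b' : ℕ → Fin 2} {i : ℕ} (h : ∀ l < i, b l = b' l)
    (hne : b i ≠ b' i) :
    ((3 : ℝ) ^ (Nat.nth (FP ρ) i + 1))⁻¹ ≤ |xx ρ b - xx ρ b'| := by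
  have h01 : (b i = 1 ∧ b' i = 0) ∨ (b i = 0 ∧ b' i = 1) := by
    generalize b i = u at hne ⊢
    generalize b' i = v at hne ⊢
    revert u v
    decide
  rcases h01 with ⟨h1, h0⟩ | ⟨h0, h1⟩
  · exact le_trans (xx_sep_aux hρ h h1 h0) (le_abs_self _)
  · rw [abs_sub_comm]
    exact le_trans (xx_sep_aux hρ (fun l hl => (h l hl).symm) h1 h0) (le_abs_self _)

/-- the Hölder exponent -/
noncomputable def hold (ρ : ℝ) : ℝ := Real.log 2 / ((nn ρ 1 + 2 * ρ) * Real.log 3)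

lemma hold_pos {ρ : ℝ} (hρ : 4 < ρ) : 0 < hold ρ := by
  unfold hold
  have h1 : 0 < Real.log 2 := Real.log_pos (by norm_num)
  have h2 : 0 < Real.log 3 := Real.log_pos (by norm_num)
  have h3 : (0 : ℝ) < nn ρ 1 + 2 * ρ := by positivity
  positivity

theorem coding_holder {ρ : ℝ} (hρ : 4 < ρ) (b b' : ℕ → Fin 2) :
    |Real.ofDigits b - Real.ofDigits b'| ≤ 2 * |xx ρ b - xx ρ b'| ^ hold ρ := by
  classical
  by_cases hbb : b = b'
  · rw [hbb]
    simp only [sub_self, abs_zero]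
    positivity
  · have hex : ∃ i, b i ≠ b' i := by
      by_contra hcon
      push Not at hcon
      exact hbb (funext hcon)
    obtain ⟨i, hi, hmin⟩ : ∃ i, b i ≠ b' i ∧ ∀ l < i, b l = b' l :=
      ⟨Nat.find hex, Nat.find_spec hex, fun l hl => by
        have := Nat.find_min hex hl
        push Not at this
        exact this⟩
    have h1 := Real.abs_ofDigits_sub_ofDigits_le hmin
    have h2 := xx_sep hρ hmin hi
    have h3 := count_bound hρ (Nat.nth_mem_of_infinite (FP_infinite hρ) i)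
    rw [Nat.count_nth_of_infinite (FP_infinite hρ) i] at h3
    set j := Nat.nth (FP ρ) i with hj
    set C : ℝ := nn ρ 1 + 2 * ρ with hC
    have hC0 : 0 < C := by positivity
    have hl2 : 0 < Real.log 2 := Real.log_pos (by norm_num)
    have hl3 : 0 < Real.log 3 := Real.log_pos (by norm_num)
    have h4 : (((2 : ℕ) : ℝ) ^ i)⁻¹ ≤ 2 * (((3 : ℝ) ^ (j + 1))⁻¹) ^ hold ρ := by
      have e1 : (((3 : ℝ) ^ (j + 1))⁻¹) ^ hold ρ = (2 : ℝ) ^ (-(((j : ℝ) + 1) / C)) := by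
        rw [← Real.rpow_natCast 3 (j + 1), ← Real.rpow_neg (by norm_num), ← Real.rpow_mul (by norm_num),
          Real.rpow_def_of_pos (by norm_num), Real.rpow_def_of_pos (by norm_num)]
        congr 1
        unfold hold
        rw [← hC]
        push_cast
        field_simp
      have e2 : (((2 : ℕ) : ℝ) ^ i)⁻¹ = 2 * (2 : ℝ) ^ (-((i : ℝ) + 1)) := by
        rw [Real.rpow_neg (by norm_num), Real.rpow_add (by norm_num), Real.rpow_natCast]
        norm_num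
        field_simp
      rw [e1, e2]
      apply mul_le_mul_of_nonneg_left _ (by norm_num)
      apply Real.rpow_le_rpow_of_exponent_le (by norm_num)
      apply neg_le_neg
      rw [div_le_iff₀ hC0]
      linarith
    refine le_trans h1 (le_trans h4 ?_)
    apply mul_le_mul_of_nonneg_left _ (by norm_num)
    exact Real.rpow_le_rpow (by positivity) h2 (hold_pos hρ).le

/-- a set coded by binary sequences with a Hölder inverse has positive dimension -/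
theorem dim_pos_of_coding {E : Type*} [MetricSpace E] (X : (ℕ → Fin 2) → E) {r : ℝ} (hr : 0 < r)
    (h : ∀ b b', |Real.ofDigits b - Real.ofDigits b'| ≤ 2 * dist (X b) (X b') ^ r) :
    0 < dimH (Set.range X) := by
  classical
  set f : E → ℝ := fun z => Real.ofDigits (Function.invFun X z) with hf
  set r' : NNReal := ⟨r, hr.le⟩ with hr'
  have hinv : ∀ z ∈ Set.range X, X (Function.invFun X z) = z := by
    rintro z ⟨b, rfl⟩
    exact Function.invFun_eq ⟨b, rfl⟩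
  have hH : HolderOnWith 2 r' f (Set.range X) := by
    intro x hx y hy
    have h1 := h (Function.invFun X x) (Function.invFun X y)
    rw [hinv x hx, hinv y hy] at h1
    rw [edist_dist, edist_dist, Real.dist_eq]
    have e1 : (ENNReal.ofReal (dist x y)) ^ (r' : ℝ) = ENNReal.ofReal (dist x y ^ r) := by
      rw [ENNReal.ofReal_rpow_of_nonneg dist_nonneg]
      · rfl
      · exact hr.le
    rw [e1]
    have e2 : ((2 : NNReal) : ENNReal) = ENNReal.ofReal 2 := by simp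
    rw [e2, ← ENNReal.ofReal_mul (by norm_num)]
    exact ENNReal.ofReal_le_ofReal h1
  have hr0 : 0 < r' := hr
  have h1 := hH.dimH_image_le hr0
  have h2 : Set.Ioo (0 : ℝ) 1 ⊆ f '' Set.range X := by
    intro y hy
    refine ⟨X (Real.digits y 2), ⟨_, rfl⟩, ?_⟩
    have h3 := h (Function.invFun X (X (Real.digits y 2))) (Real.digits y 2)
    rw [hinv _ ⟨_, rfl⟩, dist_self, Real.zero_rpow hr.ne', mul_zero] at h3
    have h4 := abs_nonpos_iff.1 h3
    have h5 : Real.ofDigits (Real.digits y 2) = y :=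
      Real.ofDigits_digits (by norm_num) ⟨hy.1.le, hy.2⟩
    show Real.ofDigits (Function.invFun X (X (Real.digits y 2))) = y
    linarith
  have h3 : (1 : ENNReal) ≤ dimH (f '' Set.range X) := by
    refine le_trans (le_of_eq ?_) (dimH_mono h2)
    rw [Real.dimH_of_nonempty_interior]
    · simp
    · rw [interior_Ioo]
      exact ⟨1 / 2, by norm_num, by norm_num⟩
  by_contra hcon
  push Not at hcon
  have h4 : dimH (Set.range X) = 0 := le_antisymm hcon bot_le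
  rw [h4, ENNReal.zero_div] at h1
  exact absurd (le_trans h3 h1) (by simp)

end Pool.Agent.U796.WM
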